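import Pool.Agent.Q189.CH.D

/-!
# The polynomials `P ∘ T_n`: consequences of the law, an example, translations
-/

set_option autoImplicit false

open Set Filter Topology Polynomial MeasureTheory

namespace Pool.Agent.Q189.CH

variable {P : ℂ[X]} {n : ℕ}

theorem density (hP : 1 ≤ P.natDegree) (hZ : FZ P) :
    ∃ q : ℚ, Tendsto (fun N : ℕ => (({n : ℕ | Hyperbolic (F P n)} ∩
      Set.Iio N).ncard : ℝ) / N) atTop (𝓝 (q : ℝ)) := by
  obtain ⟨M, K, n₀, C, hM, -, -, -, -, h⟩ := law hP hZ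
  refine ⟨(({a | a < M ∧ ¬ Res P a}.ncard : ℚ)) / M, ?_⟩
  push_cast
  exact h

theorem density_one (hP : 1 ≤ P.natDegree) (hZ : FZ P) (hv : ∀ v : ℂ, CV P v → ¬ Sp v) :
    Tendsto (fun N : ℕ => (({n : ℕ | Hyperbolic (F P n)} ∩
      Set.Iio N).ncard : ℝ) / N) atTop (𝓝 1) := by
  obtain ⟨M, K, n₀, C, hM, -, -, -, -, h⟩ := law hP hZ
  have h1 : ∀ n, ¬ Res P n := by
    rintro n ⟨v, hv1, hv2⟩
    exact hv v hv1 (hv2 0).1
  have h2 : {a : ℕ | a < M ∧ ¬ Res P a} = ↑(Finset.range M) := by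
    ext a; simp [h1]
  rw [h2, Set.ncard_coe_finset, Finset.card_range, div_self (by exact_mod_cast hM.ne')] at h
  exact h

/-- A polynomial with a nonreal coefficient takes real values at finitely many real points. -/
theorem FZ_of (h : ∃ k, (P.coeff k).im ≠ 0) : FZ P := by
  set S : ℂ[X] := P - P.map (starRingEnd ℂ) with hS
  have hS0 : S ≠ 0 := by
    intro h0
    obtain ⟨k, hk⟩ := h
    have h1 := congrArg (fun Q => Q.coeff k) h0
    simp only [hS, coeff_sub, coeff_map, coeff_zero] at h1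
    have h2 := congrArg Complex.im h1
    simp at h2
    exact hk h2
  have h2 := S.roots.toFinset.finite_toSet
  refine h2.subset ?_
  rintro _ ⟨⟨t, -, rfl⟩, s, -, hs⟩
  simp only [Finset.mem_coe, Multiset.mem_toFinset, mem_roots', ne_eq]
  refine ⟨hS0, ?_⟩
  show S.eval (t : ℂ) = 0
  have h3 : (P.map (starRingEnd ℂ)).eval (t : ℂ) = (starRingEnd ℂ) (P.eval (t : ℂ)) := by
    have h4 : ((t : ℂ)) = (starRingEnd ℂ) (t : ℂ) := (Complex.conj_ofReal t).symm
    conv_lhs => rw [h4]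
    rw [eval_map, eval₂_hom]
  rw [hS, eval_sub, h3, hs, Complex.conj_ofReal, sub_self]

/-! ### An example -/

/-- The affine polynomial with `1 ↦ -1` and `-1 ↦ i`. -/
noncomputable def ex : ℂ[X] := C ((Complex.I - 1) / 2) + C ((-1 - Complex.I) / 2) * X

theorem ex_eval (x : ℂ) : ex.eval x = (Complex.I - 1) / 2 + (-1 - Complex.I) / 2 * x := by
  simp [ex]

theorem ex_ne : (-1 - Complex.I) / 2 ≠ 0 := by
  intro h
  have := congrArg Complex.re h
  norm_num at this

theorem ex_natDegree : ex.natDegree = 1 := by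
  unfold ex
  rw [add_comm]
  exact natDegree_linear ex_ne

theorem ex_der (x : ℂ) : (derivative ex).eval x = (-1 - Complex.I) / 2 := by
  simp [ex]

theorem ex_FZ : FZ ex := by
  apply FZ_of
  refine ⟨0, ?_⟩
  simp [ex]

theorem ex_one : ex.eval 1 = -1 := by rw [ex_eval]; ring
theorem ex_neg_one : ex.eval (-1) = Complex.I := by rw [ex_eval]; ring

theorem not_seg_I : ¬ Seg Complex.I := by
  rintro ⟨t, -, h⟩
  have := congrArg Complex.im h
  simp at this

theorem tn_neg_one (n : ℕ) : tn n (-1) = (-1) ^ n := by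
  have h1 : (-1 : ℂ) = Complex.cos (Real.pi : ℝ) := by simp
  conv_lhs => rw [h1]
  rw [tn_cos]
  induction n with
  | zero => simp
  | succ n ih =>
    push_cast
    rw [add_mul, one_mul, Complex.cos_add_pi, ih]
    ring

theorem ex_res (n : ℕ) : Res ex n ↔ Even n := by
  constructor
  · rintro ⟨v, hv, hj⟩
    by_contra hodd
    rw [Nat.not_even_iff_odd] at hodd
    have h0 := (hj 0).1.seg
    have h1 := (hj 1).1.seg
    rw [Function.iterate_one, map_F] at h1
    rcases hv with h | h | ⟨y, hy, -⟩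
    · rw [ex_one] at h
      rw [h, tn_neg_one, hodd.neg_one_pow, ex_neg_one] at h1
      exact not_seg_I h1
    · rw [ex_neg_one] at h
      rw [h] at h0
      exact not_seg_I h0
    · rw [ex_der] at hy
      exact ex_ne hy
  · intro heven
    have hfix : ∀ j : ℕ, (map (F ex n))^[j] (-1) = -1 := by
      intro j
      refine Function.iterate_fixed ?_ j
      rw [map_F, tn_neg_one, heven.neg_one_pow, ex_one]
    refine ⟨-1, Or.inl ex_one.symm, fun j => ?_⟩
    rw [hfix]
    refine ⟨⟨1, by simp⟩, ?_, fun _ => by norm_num⟩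
    rw [ex_der]
    exact ex_ne

theorem ex_density :
    Tendsto (fun N : ℕ => (({n : ℕ | Hyperbolic (F ex n)} ∩
      Set.Iio N).ncard : ℝ) / N) atTop (𝓝 (1 / 2)) := by
  obtain ⟨M, K, n₀, C, hM, h1, h2, h3, h4, -⟩ := law (by rw [ex_natDegree]) ex_FZ
  have h5 := density_periodic (M := 2) two_pos (p := fun n => ¬ Even n)
    (H := {n : ℕ | Hyperbolic (F ex n)})
    (S := {n : ℕ | Exc ex (C / n) n}) (n₀ := n₀)
    (fun n m h => by
      rw [Nat.even_iff, Nat.even_iff]
      have : n % 2 = m % 2 := h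
      rw [this]) (density_of_window h4) (by
      intro n hn hS
      constructor
      · intro h6 h7
        exact h2 n hn ((ex_res n).2 h7) h6
      · intro h6
        exact h3 n hn (fun h7 => h6 ((ex_res n).1 h7)) hS)
  have h6 : {a : ℕ | a < 2 ∧ ¬ Even a} = {1} := by
    ext a
    simp only [Set.mem_ofPred_eq, Set.mem_singleton_iff]
    constructor
    · rintro ⟨ha, hb⟩
      interval_cases a
      · simp at hb
      · rfl
    · rintro rfl
      exact ⟨by norm_num, by decide⟩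
  rw [h6, Set.ncard_singleton] at h5
  simpa using h5

/-! ### Translations -/

theorem F_add (P : ℂ[X]) (a : ℂ) (n : ℕ) : F (P + Polynomial.C a) n = F P n + Polynomial.C a := by
  simp [F, add_comp]

theorem cv_add {a v : ℂ} (h : CV (P + Polynomial.C a) v) : CV P (v - a) := by
  rcases h with h | h | ⟨y, hy, h⟩
  · left; rw [h]; simp
  · right; left; rw [h]; simp
  · right; right; exact ⟨y, by simpa using hy, by rw [h]; simp⟩

/-- If all translated critical values are off the segment then the translate is hyperbolic. -/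
theorem hyp_add (hP : 1 ≤ P.natDegree) : ∃ C : ℝ, 0 < C ∧ ∀ a : ℂ, ‖a‖ ≤ 1 → ∀ n : ℕ, 2 ≤ n →
    (∀ v, CV P v → ∀ t : ℝ, |t| ≤ 1 → C / n < ‖v + a - t‖) →
    Hyperbolic (F P n + Polynomial.C a) := by
  obtain ⟨C, hC, hesc⟩ := escape hP
  refine ⟨C, hC, fun a ha n hn h => ?_⟩
  rw [← F_add]
  intro z hz
  left
  apply escapes_succ
  refine hesc a ha n hn _ 0 fun t ht => ?_
  rw [Function.iterate_zero, id]
  have h1 := h _ (cv_add (cv_of_crit (by omega) hz)) t ht
  rwa [sub_add_cancel] at h1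

/-- Small translates are hyperbolic. -/
theorem small_translate (hP : 1 ≤ P.natDegree) : ∃ C : ℝ, 0 < C ∧ ∃ n₀ : ℕ, ∀ n : ℕ, n₀ ≤ n →
    ∃ a : ℂ, ‖a‖ ≤ C / n ∧ Hyperbolic (F P n + Polynomial.C a) := by
  obtain ⟨C, hC, hh⟩ := hyp_add hP
  set V := (cv_finite hP).toFinset with hV
  set N := V.card with hN
  obtain ⟨n₁, hn₁⟩ := exists_nat_gt (3 * N * C)
  refine ⟨3 * N * C + 1, by positivity, n₁ + 2, fun n hn => ?_⟩
  have hnR : (0 : ℝ) < n := by exact_mod_cast (by omega : 0 < n)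
  have hn1 : (n₁ : ℝ) ≤ n := by exact_mod_cast (by omega : n₁ ≤ n)
  have hε : 0 < C / n := by positivity
  have hk : ∃ k ∈ Finset.range (N + 1), ∀ v ∈ V, C / n < |v.im + 3 * k * (C / n)| := by
    by_contra hcon
    push Not at hcon
    choose! g hg1 hg2 using hcon
    obtain ⟨i, hi, j, hj, hij, he⟩ := Finset.exists_ne_map_eq_of_card_lt_of_maps_to
      (s := Finset.range (N + 1)) (t := V) (f := g) (by rw [Finset.card_range]; omega) hg1
    have h1 := hg2 i hi
    have h2 := hg2 j hj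
    rw [he] at h1
    rw [abs_le] at h1 h2
    rcases lt_or_gt_of_ne hij with h | h
    · have h3 : (i : ℝ) + 1 ≤ j := by exact_mod_cast h
      have h4 : ((i : ℝ) + 1) * (C / n) ≤ j * (C / n) := by gcongr
      nlinarith
    · have h3 : (j : ℝ) + 1 ≤ i := by exact_mod_cast h
      have h4 : ((j : ℝ) + 1) * (C / n) ≤ i * (C / n) := by gcongr
      nlinarith
  obtain ⟨k, hk1, hk2⟩ := hk
  rw [Finset.mem_range] at hk1
  have hkN : (k : ℝ) ≤ N := by exact_mod_cast (by omega : k ≤ N)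
  have hna : ‖(((3 * k * (C / n) : ℝ) : ℂ) * Complex.I)‖ = 3 * k * (C / n) := by
    rw [norm_mul, Complex.norm_I, mul_one, Complex.norm_real, Real.norm_eq_abs, abs_of_nonneg
      (by positivity)]
  have hle : 3 * k * (C / n) ≤ 3 * N * C / n := by
    rw [mul_div_assoc]
    gcongr
  refine ⟨((3 * k * (C / n) : ℝ) : ℂ) * Complex.I, ?_, hh _ ?_ n (by omega) ?_⟩
  · rw [hna, add_div]
    have : 0 < 1 / (n : ℝ) := by positivity
    linarith
  · rw [hna]
    refine hle.trans ?_
    rw [div_le_one hnR]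
    linarith
  · intro v hv t ht
    refine (hk2 v ((cv_finite hP).mem_toFinset.2 hv)).trans_le ?_
    have h1 := Complex.abs_im_le_norm (v + ((3 * k * (C / n) : ℝ) : ℂ) * Complex.I - t)
    rw [Complex.sub_im, Complex.add_im, Complex.im_ofReal_mul, Complex.I_im, mul_one,
      Complex.ofReal_im, sub_zero] at h1
    exact h1

theorem volume_rect (a b c d : ℝ) (h : a ≤ b) :
    volume {z : ℂ | (a ≤ z.re ∧ z.re ≤ b) ∧ c ≤ z.im ∧ z.im ≤ d} =
      ENNReal.ofReal ((b - a) * (d - c)) := by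
  have h1 : {z : ℂ | (a ≤ z.re ∧ z.re ≤ b) ∧ c ≤ z.im ∧ z.im ≤ d} =
      Complex.measurableEquivRealProd ⁻¹' (Set.Icc a b ×ˢ Set.Icc c d) := by
    ext z
    simp [Complex.measurableEquivRealProd]
    tauto
  rw [h1, Complex.volume_preserving_equiv_real_prod.measure_preimage_equiv,
    Measure.volume_eq_prod, Measure.prod_prod, Real.volume_Icc, Real.volume_Icc,
    ENNReal.ofReal_mul (by linarith)]

/-- The area of the bad translations. -/
theorem area_translate (hP : 1 ≤ P.natDegree) : ∃ C : ℝ, 0 < C ∧ ∀ n : ℕ, 2 ≤ n →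
    volume {a : ℂ | ‖a‖ ≤ 1 ∧ ¬ Hyperbolic (F P n + Polynomial.C a)} ≤ ENNReal.ofReal (C / n) := by
  obtain ⟨C, hC, hh⟩ := hyp_add hP
  set V := (cv_finite hP).toFinset with hV
  refine ⟨(V.card + 1) * ((2 + 2 * C) * (2 * C)), by positivity, fun n hn => ?_⟩
  have hnR : (0 : ℝ) < n := by exact_mod_cast (by omega : 0 < n)
  have hn1 : (1 : ℝ) ≤ n := by exact_mod_cast (by omega : 1 ≤ n)
  set ε : ℝ := C / n with hε
  have hε0 : 0 < ε := by positivity
  have hεC : ε ≤ C := div_le_self hC.le hn1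
  have hsub : {a : ℂ | ‖a‖ ≤ 1 ∧ ¬ Hyperbolic (F P n + Polynomial.C a)} ⊆
      ⋃ v ∈ V, {z : ℂ | (-1 - ε - v.re ≤ z.re ∧ z.re ≤ 1 + ε - v.re) ∧
        -ε - v.im ≤ z.im ∧ z.im ≤ ε - v.im} := by
    rintro a ⟨ha, hna⟩
    by_contra hcon
    apply hna
    refine hh a ha n hn fun v hv t ht => ?_
    by_contra h
    rw [not_lt] at h
    apply hcon
    refine Set.mem_biUnion (x := v) ((cv_finite hP).mem_toFinset.2 hv) ?_
    have h1 := (Complex.abs_re_le_norm _).trans h
    have h2 := (Complex.abs_im_le_norm _).trans h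
    rw [Complex.sub_re, Complex.add_re, Complex.ofReal_re, abs_le] at h1
    rw [Complex.sub_im, Complex.add_im, Complex.ofReal_im, sub_zero, abs_le] at h2
    rw [abs_le] at ht
    exact ⟨⟨by linarith [h1.1], by linarith [h1.2]⟩, by linarith [h2.1], by linarith [h2.2]⟩
  refine (measure_mono hsub).trans ((measure_biUnion_finset_le _ _).trans ?_)
  have hrect : ∀ v ∈ V, volume {z : ℂ | (-1 - ε - v.re ≤ z.re ∧ z.re ≤ 1 + ε - v.re) ∧
        -ε - v.im ≤ z.im ∧ z.im ≤ ε - v.im} ≤ ENNReal.ofReal ((2 + 2 * C) * (2 * C) / n) := by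
    intro v _
    rw [volume_rect _ _ _ _ (by linarith)]
    apply ENNReal.ofReal_le_ofReal
    have e : (1 + ε - v.re - (-1 - ε - v.re)) * (ε - v.im - (-ε - v.im)) =
        (2 + 2 * ε) * (2 * ε) := by ring
    rw [e]
    have e2 : (2 + 2 * C) * (2 * C) / n = (2 + 2 * C) * (2 * ε) := by rw [hε]; ring
    rw [e2]
    gcongr
  refine (Finset.sum_le_sum hrect).trans ?_
  rw [Finset.sum_const, nsmul_eq_mul, ← ENNReal.ofReal_natCast,
    ← ENNReal.ofReal_mul (Nat.cast_nonneg _)]
  apply ENNReal.ofReal_le_ofReal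
  have h1 : 0 ≤ (2 + 2 * C) * (2 * C) / n := by positivity
  have h2 : ((V.card : ℝ) + 1) * ((2 + 2 * C) * (2 * C)) / n =
      V.card * ((2 + 2 * C) * (2 * C) / n) + (2 + 2 * C) * (2 * C) / n := by ring
  rw [h2]
  linarith

end Pool.Agent.Q189.CH
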