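import Mathlib

/-!
# Densities of sets of natural numbers and repetitions in orbits
(after `Pool.Agent.TH864.ZO`)
-/

set_option autoImplicit false

open Set Filter Topology

namespace Pool.Agent.Q189.CH

theorem exists_repeat {T : ℂ → ℂ} {X : Set ℂ} (hX : X.Finite) {v : ℂ}
    (h : ∀ i ≤ X.ncard, T^[i] v ∈ X) :
    ∃ a p : ℕ, 0 < p ∧ a + p ≤ X.ncard ∧ T^[p] (T^[a] v) = T^[a] v := by
  obtain ⟨i, hi, j, hj, hij, he⟩ := Finset.exists_ne_map_eq_of_card_lt_of_maps_to
    (s := Finset.range (X.ncard + 1)) (t := hX.toFinset) (f := fun i => T^[i] v)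
    (by rw [Finset.card_range, ← Set.ncard_eq_toFinset_card X hX]; omega)
    (fun i hi => by
      have hi' : i < X.ncard + 1 := by simpa using hi
      simpa using h i (by omega))
  rw [Finset.mem_range] at hi hj
  have key : ∀ i j, i < j → j < X.ncard + 1 → T^[i] v = T^[j] v →
      ∃ a p : ℕ, 0 < p ∧ a + p ≤ X.ncard ∧ T^[p] (T^[a] v) = T^[a] v := by
    intro i j hlt hj he
    refine ⟨i, j - i, by omega, by omega, ?_⟩
    rw [← Function.iterate_add_apply, show j - i + i = j by omega, he]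
  rcases lt_or_gt_of_ne hij with h1 | h1
  · exact key i j h1 hj he
  · exact key j i h1 hi he.symm

theorem repeat_mod {T : ℂ → ℂ} {v : ℂ} {a p : ℕ} (hp : T^[p] (T^[a] v) = T^[a] v) {j : ℕ}
    (hj : a ≤ j) : T^[j] v = T^[a + (j - a) % p] v := by
  have h1 : Function.IsPeriodicPt T p (T^[a] v) := hp
  have h2 := h1.iterate_mod_apply (j - a)
  rw [← Function.iterate_add_apply, ← Function.iterate_add_apply] at h2
  rw [add_comm a, h2]
  congr 2
  omega

/-- A set with boundedly many elements in long windows has density zero. -/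
theorem density_of_window {S : Set ℕ} {K : ℕ}
    (h : ∀ L : ℕ, ∃ N₀ : ℕ, ∀ N, N₀ ≤ N → (S ∩ Set.Ico N (N + L)).ncard ≤ K) :
    Tendsto (fun N : ℕ => ((S ∩ Set.Iio N).ncard : ℝ) / N) atTop (𝓝 0) := by
  rw [Metric.tendsto_atTop]
  intro ε hε
  obtain ⟨L, hL⟩ := exists_nat_gt (2 * (K : ℝ) / ε)
  have hL0 : 0 < (L : ℝ) := lt_of_le_of_lt (by positivity) hL
  have hL1 : 0 < L := by exact_mod_cast hL0
  obtain ⟨N₀, hN₀⟩ := h L
  have hcount : ∀ k : ℕ, (S ∩ Set.Iio (N₀ + k * L)).ncard ≤ N₀ + k * K := by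
    intro k
    induction k with
    | zero =>
      rw [zero_mul, zero_mul, add_zero]
      refine (Set.ncard_le_ncard Set.inter_subset_right (Set.finite_Iio N₀)).trans ?_
      rw [← Finset.coe_Iio, Set.ncard_coe_finset, Nat.card_Iio]
    | succ k ih =>
      have hsub : S ∩ Set.Iio (N₀ + (k + 1) * L) ⊆ (S ∩ Set.Iio (N₀ + k * L)) ∪
          (S ∩ Set.Ico (N₀ + k * L) (N₀ + k * L + L)) := by
        rintro n ⟨h1, h2⟩
        rw [Set.mem_Iio] at h2
        rcases lt_or_ge n (N₀ + k * L) with h3 | h3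
        · exact Or.inl ⟨h1, h3⟩
        · refine Or.inr ⟨h1, h3, ?_⟩
          calc n < N₀ + (k + 1) * L := h2
            _ = N₀ + k * L + L := by ring
      refine (Set.ncard_le_ncard hsub ?_).trans ((Set.ncard_union_le _ _).trans ?_)
      · exact ((Set.finite_Iio _).subset Set.inter_subset_right).union
          ((Set.finite_Ico _ _).subset Set.inter_subset_right)
      · have := hN₀ (N₀ + k * L) (Nat.le_add_right _ _)
        calc _ ≤ (N₀ + k * K) + K := Nat.add_le_add ih this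
          _ = _ := by ring
  obtain ⟨N₁, hN₁⟩ := exists_nat_gt ((N₀ + K) / (ε / 2))
  refine ⟨N₁ + 1, fun N hN => ?_⟩
  have hN0 : (0:ℝ) < N := by exact_mod_cast (by omega : 0 < N)
  rw [Real.dist_eq, sub_zero, abs_of_nonneg (by positivity), div_lt_iff₀ hN0]
  have h1 : (S ∩ Set.Iio N).ncard ≤ N₀ + (N / L + 1) * K := by
    refine (Set.ncard_le_ncard ?_ ((Set.finite_Iio _).subset Set.inter_subset_right)).trans
      (hcount (N / L + 1))
    rintro n ⟨h1, h2⟩
    refine ⟨h1, ?_⟩
    rw [Set.mem_Iio] at h2 ⊢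
    have := Nat.lt_div_mul_add hL1 (a := N)
    have h3 : (N / L + 1) * L = N / L * L + L := by ring
    omega
  have h2 : ((S ∩ Set.Iio N).ncard : ℝ) ≤ N₀ + ((N / L : ℕ) + 1) * K := by exact_mod_cast h1
  have h3 : ((N / L : ℕ) : ℝ) ≤ N / L := Nat.cast_div_le
  have h4 : ((N / L : ℕ) : ℝ) * K ≤ N * (ε / 2) := by
    rw [div_lt_iff₀ hε] at hL
    calc ((N / L : ℕ) : ℝ) * K ≤ (N / L : ℝ) * K := by gcongr
      _ = N * (K / L) := by ring
      _ ≤ N * (ε / 2) := by
          apply mul_le_mul_of_nonneg_left _ hN0.le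
          rw [div_le_iff₀ hL0]; linarith
  have h5 : (N₁:ℝ) < N := by exact_mod_cast (by omega : N₁ < N)
  have h6 : (N₀ + K : ℝ) < N * (ε / 2) := by
    rw [div_lt_iff₀ (half_pos hε)] at hN₁
    exact hN₁.trans (by gcongr)
  nlinarith

theorem count_periodic {p : ℕ → Prop} [DecidablePred p] {M : ℕ}
    (hp : ∀ n, p (M + n) ↔ p n) (q r : ℕ) : Nat.count p (M * q + r) =
      q * Nat.count p M + Nat.count p r := by
  induction q with
  | zero => simp
  | succ q ih =>
    have e : M * (q + 1) + r = M + (M * q + r) := by ring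
    rw [e, Nat.count_add]
    have h1 : Nat.count (fun k => p (M + k)) (M * q + r) = Nat.count p (M * q + r) := by
      congr 1
      · funext k; exact propext (hp k)
    rw [h1, ih]
    ring

/-- The density of a set which is periodic up to a set of density zero. -/
theorem density_periodic {p : ℕ → Prop} {M : ℕ} (hM : 0 < M)
    (hp : ∀ n m : ℕ, n ≡ m [MOD M] → (p n ↔ p m)) {H S : Set ℕ} {n₀ : ℕ}
    (hS : Tendsto (fun N : ℕ => ((S ∩ Set.Iio N).ncard : ℝ) / N) atTop (𝓝 0))
    (h : ∀ n, n₀ ≤ n → n ∉ S → (n ∈ H ↔ p n)) :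
    Tendsto (fun N : ℕ => ((H ∩ Set.Iio N).ncard : ℝ) / N) atTop
      (𝓝 (({a | a < M ∧ p a}.ncard : ℝ) / M)) := by
  classical
  have hM0 : (0 : ℝ) < M := by exact_mod_cast hM
  have hp' : ∀ n, p (M + n) ↔ p n := fun n => hp _ _ (by simp [Nat.ModEq])
  have hcount : ∀ N, ({a | p a} ∩ Set.Iio N).ncard = Nat.count p N := by
    intro N
    rw [Nat.count_eq_card_filter_range, ← Set.ncard_coe_finset]
    congr 1
    ext a
    simp [and_comm]
  have hA : {a | a < M ∧ p a}.ncard = Nat.count p M := by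
    rw [← hcount]
    congr 1
    ext a
    simp [and_comm]
  rw [hA]
  set A := Nat.count p M with hAdef
  have hAM : A ≤ M := Nat.count_le p
  -- the main term
  have hmain : ∀ N : ℕ, |(Nat.count p N : ℝ) - A / M * N| ≤ M := by
    intro N
    have h1 := count_periodic hp' (N / M) (N % M)
    rw [Nat.div_add_mod] at h1
    have h2 : (N : ℝ) = M * (N / M : ℕ) + (N % M : ℕ) := by exact_mod_cast (Nat.div_add_mod N M).symm
    have h3 : Nat.count p (N % M) ≤ N % M := Nat.count_le p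
    have h4 : N % M < M := Nat.mod_lt _ hM
    have h5 : (Nat.count p N : ℝ) - A / M * N = Nat.count p (N % M) - A / M * (N % M : ℕ) := by
      rw [h1]
      push_cast
      rw [← hAdef]
      conv_lhs => rw [h2]
      field_simp
      ring
    rw [h5, abs_le]
    have h6 : (Nat.count p (N % M) : ℝ) ≤ M := by exact_mod_cast (h3.trans h4.le)
    have h7 : (0 : ℝ) ≤ Nat.count p (N % M) := Nat.cast_nonneg _
    have h8 : (A : ℝ) / M ≤ 1 := by
      rw [div_le_one hM0]; exact_mod_cast hAM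
    have h9 : (0 : ℝ) ≤ A / M := by positivity
    have h10 : ((N % M : ℕ) : ℝ) ≤ M := by exact_mod_cast h4.le
    have h11 : (0 : ℝ) ≤ (N % M : ℕ) := Nat.cast_nonneg _
    constructor
    · nlinarith
    · nlinarith [mul_nonneg h9 h11]
  -- the comparison
  have hcmp : ∀ N : ℕ, |((H ∩ Set.Iio N).ncard : ℝ) - Nat.count p N| ≤
      n₀ + (S ∩ Set.Iio N).ncard := by
    intro N
    have hfin : ∀ T : Set ℕ, (T ∩ Set.Iio N).Finite := fun T =>
      (Set.finite_Iio N).subset Set.inter_subset_right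
    have hn₀ : (Set.Iio n₀).ncard = n₀ := by
      rw [← Finset.coe_Iio, Set.ncard_coe_finset, Nat.card_Iio]
    have h1 : (H ∩ Set.Iio N).ncard ≤ Nat.count p N + (n₀ + (S ∩ Set.Iio N).ncard) := by
      rw [← hcount]
      refine (Set.ncard_le_ncard (t := ({a | p a} ∩ Set.Iio N) ∪
        (Set.Iio n₀ ∪ (S ∩ Set.Iio N))) ?_ ((hfin _).union ((Set.finite_Iio n₀).union
          (hfin _)))).trans ((Set.ncard_union_le _ _).trans (Nat.add_le_add_left
            ((Set.ncard_union_le _ _).trans (by rw [hn₀])) _))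
      rintro n ⟨h1, h2⟩
      by_cases h3 : n < n₀
      · exact Or.inr (Or.inl h3)
      · by_cases h4 : n ∈ S
        · exact Or.inr (Or.inr ⟨h4, h2⟩)
        · exact Or.inl ⟨(h n (by omega) h4).1 h1, h2⟩
    have h2 : Nat.count p N ≤ (H ∩ Set.Iio N).ncard + (n₀ + (S ∩ Set.Iio N).ncard) := by
      rw [← hcount]
      refine (Set.ncard_le_ncard (t := (H ∩ Set.Iio N) ∪
        (Set.Iio n₀ ∪ (S ∩ Set.Iio N))) ?_ ((hfin _).union ((Set.finite_Iio n₀).union
          (hfin _)))).trans ((Set.ncard_union_le _ _).trans (Nat.add_le_add_left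
            ((Set.ncard_union_le _ _).trans (by rw [hn₀])) _))
      rintro n ⟨h1, h2⟩
      by_cases h3 : n < n₀
      · exact Or.inr (Or.inl h3)
      · by_cases h4 : n ∈ S
        · exact Or.inr (Or.inr ⟨h4, h2⟩)
        · exact Or.inl ⟨(h n (by omega) h4).2 h1, h2⟩
    have h1' : ((H ∩ Set.Iio N).ncard : ℝ) ≤ Nat.count p N + (n₀ + (S ∩ Set.Iio N).ncard) := by
      exact_mod_cast h1
    have h2' : (Nat.count p N : ℝ) ≤ (H ∩ Set.Iio N).ncard + (n₀ + (S ∩ Set.Iio N).ncard) := by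
      exact_mod_cast h2
    rw [abs_le]
    constructor <;> linarith
  -- the limit
  rw [tendsto_iff_norm_sub_tendsto_zero]
  have hlim : Tendsto (fun N : ℕ => ((n₀ : ℝ) + M) / N + ((S ∩ Set.Iio N).ncard : ℝ) / N) atTop
      (𝓝 0) := by
    have h1 := (tendsto_const_div_atTop_nhds_zero_nat ((n₀ : ℝ) + M)).add hS
    rwa [add_zero] at h1
  refine squeeze_zero' (Eventually.of_forall fun N => norm_nonneg _) ?_ hlim
  filter_upwards [eventually_gt_atTop 0] with N hN
  have hN0 : (0 : ℝ) < N := by exact_mod_cast hN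
  rw [← add_div, Real.norm_eq_abs]
  have e : ((H ∩ Set.Iio N).ncard : ℝ) / N - A / M =
      (((H ∩ Set.Iio N).ncard : ℝ) - A / M * N) / N := by field_simp
  rw [e, abs_div, abs_of_pos hN0]
  apply div_le_div_of_nonneg_right _ hN0.le
  have h1 := abs_add_le (((H ∩ Set.Iio N).ncard : ℝ) - Nat.count p N)
    ((Nat.count p N : ℝ) - A / M * N)
  rw [sub_add_sub_cancel] at h1
  have h2 := hcmp N
  have h3 := hmain N
  linarith

end Pool.Agent.Q189.CH
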