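import Pool.Agent.Q189.CH.A

/-!
# Chebyshev polynomials: growth off the segment, derivative, cosines of rational angles
-/

set_option autoImplicit false

open Set Filter Topology Polynomial

namespace Pool.Agent.Q189.CH

/-- The polynomial as a self-map of the plane. -/
def map (T : ℂ[X]) : ℂ → ℂ := fun w : ℂ => T.eval w

/-- The orbit of `z` escapes to infinity. -/
def Escapes (T : ℂ[X]) (z : ℂ) : Prop :=
  Tendsto (fun k : ℕ => ‖(map T)^[k] z‖) atTop atTop

/-- The orbit of `z` is attracted by a sink (attracting periodic point) of `T`. -/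
def Attracted (T : ℂ[X]) (z : ℂ) : Prop :=
  ∃ n : ℕ, 0 < n ∧ ∃ x : ℂ, (map T)^[n] x = x ∧ ‖deriv ((map T)^[n]) x‖ < 1 ∧
    Tendsto (fun k : ℕ => (map T)^[n * k] z) atTop (𝓝 x)

/-- `T` is hyperbolic: every critical point escapes or is attracted by a sink. -/
def Hyperbolic (T : ℂ[X]) : Prop :=
  ∀ c : ℂ, (derivative T).eval c = 0 → Escapes T c ∨ Attracted T c

/-- The Chebyshev polynomial `T_n` as a function. -/
noncomputable def tn (n : ℕ) (x : ℂ) : ℂ := (Chebyshev.T ℂ n).eval x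

/-- The polynomial `P ∘ T_n`. -/
noncomputable def F (P : ℂ[X]) (n : ℕ) : ℂ[X] := P.comp (Chebyshev.T ℂ n)

/-- `x` belongs to the segment `[-1, 1]`. -/
def Seg (x : ℂ) : Prop := ∃ t : ℝ, |t| ≤ 1 ∧ x = t

/-- `x` is the cosine of a rational multiple of `π`. -/
def Sp (x : ℂ) : Prop := ∃ r : ℚ, x = Complex.cos (r * Real.pi)

theorem tn_cos (n : ℕ) (θ : ℂ) : tn n (Complex.cos θ) = Complex.cos (n * θ) := by
  unfold tn
  rw [Chebyshev.T_complex_cos]
  norm_cast

theorem map_F (P : ℂ[X]) (n : ℕ) (x : ℂ) : map (F P n) x = P.eval (tn n x) := by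
  simp [map, F, tn, eval_comp]

theorem seg_cos (θ : ℝ) : Seg (Complex.cos θ) :=
  ⟨Real.cos θ, Real.abs_cos_le_one θ, by rw [Complex.ofReal_cos]⟩

theorem Seg.exists {x : ℂ} (h : Seg x) : ∃ θ : ℝ, x = Complex.cos θ := by
  obtain ⟨t, ht, rfl⟩ := h
  rw [abs_le] at ht
  exact ⟨Real.arccos t, by rw [← Complex.ofReal_cos, Real.cos_arccos ht.1 ht.2]⟩

theorem Sp.seg {x : ℂ} (h : Sp x) : Seg x := by
  obtain ⟨r, rfl⟩ := h
  have := seg_cos (r * Real.pi)
  push_cast at this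
  exact this

theorem Seg.tn {x : ℂ} (h : Seg x) (n : ℕ) : Seg (tn n x) := by
  obtain ⟨θ, rfl⟩ := h.exists
  rw [tn_cos]
  have := seg_cos (n * θ)
  push_cast at this
  exact this

theorem Sp.tn {x : ℂ} (h : Sp x) (n : ℕ) : Sp (tn n x) := by
  obtain ⟨r, rfl⟩ := h
  rw [tn_cos]
  exact ⟨n * r, by push_cast; ring_nf⟩

theorem Sp.period {x : ℂ} (h : Sp x) :
    ∃ M : ℕ, 0 < M ∧ ∀ n m : ℕ, n ≡ m [MOD M] → CH.tn n x = CH.tn m x := by
  obtain ⟨r, rfl⟩ := h
  refine ⟨2 * r.den, by have := r.den_pos; omega, fun n m hnm => ?_⟩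
  rw [tn_cos, tn_cos]
  have h1 : ((2 * r.den : ℕ) : ℤ) ∣ (m : ℤ) - n := (Nat.modEq_iff_dvd).1 hnm
  obtain ⟨k, hk⟩ := h1
  have h2 : (m : ℂ) = n + (2 * r.den) * k := by
    have : (m : ℤ) = n + (2 * r.den) * k := by push_cast at hk; linarith
    exact_mod_cast this
  have h3 : (r : ℂ) * r.den = r.num := by
    have := Rat.mul_den_eq_num r
    exact_mod_cast this
  have h4 : (m : ℂ) * (r * Real.pi) = n * (r * Real.pi) + (k * r.num : ℤ) * (2 * Real.pi) := by
    rw [h2]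
    push_cast
    rw [← h3]
    ring
  rw [h4, Complex.cos_add_int_mul_two_pi]

theorem exists_period {X : Set ℂ} (hX : X.Finite) (h : ∀ x ∈ X, Sp x) :
    ∃ M : ℕ, 0 < M ∧ ∀ x ∈ X, ∀ n m : ℕ, n ≡ m [MOD M] → tn n x = tn m x := by
  induction X, hX using Set.Finite.induction_on with
  | empty => exact ⟨1, one_pos, by simp⟩
  | @insert a s _ _ ih =>
    obtain ⟨M, hM, h1⟩ := ih fun x hx => h x (Or.inr hx)
    obtain ⟨M', hM', h2⟩ := (h a (Or.inl rfl)).period
    refine ⟨M * M', Nat.mul_pos hM hM', ?_⟩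
    rintro x (rfl | hx) n m hnm
    · exact h2 n m (hnm.of_dvd (Dvd.intro_left _ rfl))
    · exact h1 x hx n m (hnm.of_dvd (Dvd.intro _ rfl))

/-- The Pell equation for the derivative. -/
theorem tn_pell (n : ℕ) (x : ℂ) :
    (1 - x ^ 2) * ((derivative (Chebyshev.T ℂ n)).eval x) ^ 2 = n ^ 2 * (1 - (tn n x) ^ 2) := by
  obtain ⟨θ, rfl⟩ := Complex.cos_surjective x
  have h1 := Chebyshev.U_complex_cos θ ((n : ℤ) - 1)
  rw [tn_cos, Chebyshev.T_derivative_eq_U]
  push_cast at h1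
  rw [sub_add_cancel] at h1
  have h2 : 1 - Complex.cos θ ^ 2 = Complex.sin θ ^ 2 := by
    rw [← Complex.sin_sq_add_cos_sq θ]; ring
  have h3 : 1 - Complex.cos (n * θ) ^ 2 = Complex.sin (n * θ) ^ 2 := by
    rw [← Complex.sin_sq_add_cos_sq (n * θ)]; ring
  rw [h2, h3, ← h1]
  simp only [eval_mul, Int.cast_natCast, eval_natCast]
  ring

theorem sq_eq_one_iff_of_ne_zero' {x : ℂ} (h : x ^ 2 = 1) : x = 1 ∨ x = -1 := by
  have h1 : (x - 1) * (x + 1) = 0 := by linear_combination h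
  rcases mul_eq_zero.1 h1 with h2 | h2
  · exact Or.inl (by linear_combination h2)
  · exact Or.inr (by linear_combination h2)

theorem dT_one (n : ℕ) {x : ℂ} (hx : x ^ 2 = 1) :
    ‖(derivative (Chebyshev.T ℂ n)).eval x‖ = (n : ℝ) ^ 2 := by
  have h : x = 1 ∨ x = -1 := sq_eq_one_iff_of_ne_zero' hx
  rw [Chebyshev.T_derivative_eq_U]
  rcases h with rfl | rfl
  · rw [eval_mul, Chebyshev.U_eval_one]
    simp
    ring
  · rw [eval_mul, Chebyshev.U_eval_neg_one]
    simp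
    ring

/-- The exponential of the modulus of the imaginary part controls the distance to the segment. -/
theorem cos_near (θ : ℂ) :
    ‖Complex.cos θ - Complex.cos (θ.re : ℝ)‖ ≤ Real.exp |θ.im| - 1 := by
  have h1 : Complex.cos θ - Complex.cos (θ.re : ℝ) =
      (Complex.exp (θ.re * Complex.I) * (Real.exp (-θ.im) - 1 : ℝ) +
        Complex.exp (-θ.re * Complex.I) * (Real.exp (θ.im) - 1 : ℝ)) / 2 := by
    rw [Complex.cos, Complex.cos]
    have h2 : Complex.exp (θ * Complex.I) =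
        Complex.exp (θ.re * Complex.I) * (Real.exp (-θ.im) : ℝ) := by
      rw [Complex.ofReal_exp, ← Complex.exp_add]
      congr 1
      conv_lhs => rw [← Complex.re_add_im θ]
      push_cast
      linear_combination (θ.im : ℂ) * Complex.I_sq
    have h3 : Complex.exp (-θ * Complex.I) =
        Complex.exp (-θ.re * Complex.I) * (Real.exp (θ.im) : ℝ) := by
      rw [Complex.ofReal_exp, ← Complex.exp_add]
      congr 1
      conv_lhs => rw [← Complex.re_add_im θ]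
      linear_combination (-θ.im : ℂ) * Complex.I_sq
    rw [h2, h3]
    push_cast
    ring
  rw [h1, norm_div, Complex.norm_two, div_le_iff₀ two_pos]
  refine (norm_add_le _ _).trans ?_
  rw [norm_mul, norm_mul, Complex.norm_exp_ofReal_mul_I, ← Complex.ofReal_neg,
    Complex.norm_exp_ofReal_mul_I, Complex.norm_real, Complex.norm_real, one_mul, one_mul,
    Real.norm_eq_abs, Real.norm_eq_abs]
  have key : ∀ b : ℝ, |Real.exp b - 1| ≤ Real.exp |b| - 1 := by
    intro b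
    rw [abs_le]
    constructor
    · have h4 : Real.exp b * Real.exp (-b) = 1 := by rw [← Real.exp_add]; simp
      have h5 : 0 < Real.exp b := Real.exp_pos b
      have h6 : Real.exp (-b) ≤ Real.exp |b| := Real.exp_le_exp.2 (neg_le_abs b)
      nlinarith [sq_nonneg (Real.exp b - 1)]
    · have h6 : Real.exp b ≤ Real.exp |b| := Real.exp_le_exp.2 (le_abs_self b)
      linarith
  have h4 := key (-θ.im)
  have h5 := key θ.im
  rw [abs_neg] at h4
  linarith

theorem cos_ge (θ : ℂ) : Real.exp |θ.im| - 1 ≤ 2 * ‖Complex.cos θ‖ := by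
  have h2 : ‖Complex.exp (θ * Complex.I)‖ = Real.exp (-θ.im) := by
    rw [Complex.norm_exp]; simp
  have h3 : ‖Complex.exp (-θ * Complex.I)‖ = Real.exp (θ.im) := by
    rw [Complex.norm_exp]; simp
  have h4 : 2 * ‖Complex.cos θ‖ = ‖Complex.exp (θ * Complex.I) + Complex.exp (-θ * Complex.I)‖ := by
    rw [Complex.cos, norm_div, Complex.norm_two]; ring
  rw [h4]
  rcases le_total 0 θ.im with h | h
  · rw [abs_of_nonneg h]
    have h5 := norm_sub_norm_le (Complex.exp (-θ * Complex.I)) (-Complex.exp (θ * Complex.I))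
    rw [norm_neg, h2, h3, sub_neg_eq_add, add_comm (Complex.exp (-θ * Complex.I))] at h5
    have h6 : Real.exp (-θ.im) ≤ 1 := Real.exp_le_one_iff.2 (by linarith)
    linarith
  · rw [abs_of_nonpos h]
    have h5 := norm_sub_norm_le (Complex.exp (θ * Complex.I)) (-Complex.exp (-θ * Complex.I))
    rw [norm_neg, h2, h3, sub_neg_eq_add] at h5
    have h6 : Real.exp (θ.im) ≤ 1 := Real.exp_le_one_iff.2 (by linarith)
    linarith

theorem cos_le (θ : ℂ) : ‖Complex.cos θ‖ ≤ Real.exp |θ.im| := by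
  have h2 : ‖Complex.exp (θ * Complex.I)‖ = Real.exp (-θ.im) := by
    rw [Complex.norm_exp]; simp
  have h3 : ‖Complex.exp (-θ * Complex.I)‖ = Real.exp (θ.im) := by
    rw [Complex.norm_exp]; simp
  rw [Complex.cos, norm_div, Complex.norm_two, div_le_iff₀ two_pos]
  refine (norm_add_le _ _).trans ?_
  rw [h2, h3]
  have h5 : Real.exp (θ.im) ≤ Real.exp |θ.im| := Real.exp_le_exp.2 (le_abs_self _)
  have h6 : Real.exp (-θ.im) ≤ Real.exp |θ.im| := Real.exp_le_exp.2 (neg_le_abs _)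
  linarith

/-- Growth of `T_n` near the segment. -/
theorem tn_near {n : ℕ} {x : ℂ} {δ : ℝ} (hx : ∀ t : ℝ, |t| ≤ 1 → δ < ‖x - t‖) :
    n * δ ≤ 2 * ‖tn n x‖ := by
  obtain ⟨θ, rfl⟩ := Complex.cos_surjective x
  rw [tn_cos]
  refine le_trans ?_ (cos_ge _)
  have h1 : |((n : ℂ) * θ).im| = n * |θ.im| := by
    rw [Complex.mul_im]
    simp [abs_mul]
  rw [h1]
  have h2 := hx (Real.cos θ.re) (Real.abs_cos_le_one _)
  rw [Complex.ofReal_cos] at h2
  have h3 := h2.trans_le (cos_near θ)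
  have h4 : Real.exp (n * |θ.im|) = (1 + (Real.exp |θ.im| - 1)) ^ n := by
    rw [add_sub_cancel, ← Real.exp_nat_mul]
  have h5 := one_add_mul_le_pow (a := Real.exp |θ.im| - 1)
    (by have := Real.exp_pos |θ.im|; linarith) n
  rw [h4]
  have h6 : (n : ℝ) * δ ≤ n * (Real.exp |θ.im| - 1) := by gcongr
  linarith

/-- Growth of `T_n` far from the segment. -/
theorem tn_far {n : ℕ} (hn : 2 ≤ n) (x : ℂ) : ‖x‖ ^ 2 - 1 ≤ 2 * ‖tn n x‖ := by
  obtain ⟨θ, rfl⟩ := Complex.cos_surjective x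
  rw [tn_cos]
  refine le_trans ?_ (cos_ge _)
  have h1 : |((n : ℂ) * θ).im| = n * |θ.im| := by
    rw [Complex.mul_im]
    simp [abs_mul]
  rw [h1]
  have h2 : ‖Complex.cos θ‖ ^ 2 ≤ Real.exp |θ.im| ^ 2 := by
    gcongr
    exact cos_le θ
  have h3 : Real.exp |θ.im| ^ 2 ≤ Real.exp (n * |θ.im|) := by
    rw [← Real.exp_nat_mul]
    apply Real.exp_le_exp.2
    have : (2 : ℝ) ≤ n := by exact_mod_cast hn
    push_cast
    gcongr
  linarith

/-- Linear growth of a nonconstant polynomial. -/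
theorem growth {P : ℂ[X]} (hP : 1 ≤ P.natDegree) :
    ∃ κ R : ℝ, 0 < κ ∧ 1 ≤ R ∧ ∀ y : ℂ, R ≤ ‖y‖ → κ * ‖y‖ ≤ ‖P.eval y‖ := by
  have hdec : ∀ y : ℂ, P.eval y = P.coeff 0 + y * P.divX.eval y := by
    intro y
    have h := congrArg (eval y) P.divX_mul_X_add
    rw [← h]
    simp
    ring
  have hA : ∃ κ R : ℝ, 0 < κ ∧ ∀ y : ℂ, R ≤ ‖y‖ → κ ≤ ‖P.divX.eval y‖ := by
    have hne : P.divX ≠ 0 := by
      intro h0
      have := P.divX_mul_X_add
      rw [h0, zero_mul, zero_add] at this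
      rw [← this, natDegree_C] at hP
      omega
    by_cases h0 : P.divX.natDegree = 0
    · rw [eq_C_of_natDegree_eq_zero h0] at hne ⊢
      have h1 : P.divX.coeff 0 ≠ 0 := fun h => hne (by rw [h, C_0])
      exact ⟨‖P.divX.coeff 0‖, 0, norm_pos_iff.2 h1, fun y _ => by rw [eval_C]⟩
    · have hd : 0 < P.divX.degree := natDegree_pos_iff_degree_pos.1 (Nat.pos_of_ne_zero h0)
      have htend : Tendsto (fun z : ℂ => ‖P.divX.eval z‖) (Bornology.cobounded ℂ) atTop :=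
        Polynomial.tendsto_norm_atTop P.divX hd tendsto_norm_cobounded_atTop
      have h1 := htend.eventually_ge_atTop 1
      rw [← comap_norm_atTop, eventually_comap] at h1
      obtain ⟨R, hR⟩ := eventually_atTop.1 h1
      exact ⟨1, R, one_pos, fun y hy => hR ‖y‖ hy y rfl⟩
  obtain ⟨κ, R, hκ, hR⟩ := hA
  refine ⟨κ / 2, max 1 (max R (2 * ‖P.coeff 0‖ / κ)), by positivity, le_max_left _ _,
    fun y hy => ?_⟩
  have h1 : R ≤ ‖y‖ := (le_max_left _ _).trans ((le_max_right _ _).trans hy)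
  have h2 : 2 * ‖P.coeff 0‖ / κ ≤ ‖y‖ := (le_max_right _ _).trans ((le_max_right _ _).trans hy)
  rw [div_le_iff₀ hκ] at h2
  have h3 := hR y h1
  rw [hdec]
  have h5 : ‖y * P.divX.eval y‖ ≤ ‖P.coeff 0 + y * P.divX.eval y‖ + ‖P.coeff 0‖ := by
    have := norm_sub_le (P.coeff 0 + y * P.divX.eval y) (P.coeff 0)
    simpa using this
  rw [norm_mul] at h5
  nlinarith [norm_nonneg y]

theorem iter_ge {T : ℂ[X]} {R : ℝ} (hR1 : 1 ≤ R)
    (hR : ∀ z : ℂ, R ≤ ‖z‖ → 2 * ‖z‖ ≤ ‖map T z‖) {z : ℂ} (hz : R ≤ ‖z‖) (k : ℕ) :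
    2 ^ k * ‖z‖ ≤ ‖(map T)^[k] z‖ := by
  induction k with
  | zero => simp
  | succ k ih =>
    rw [Function.iterate_succ_apply']
    have h1 : R ≤ ‖(map T)^[k] z‖ := by
      have : (1 : ℝ) ≤ 2 ^ k := one_le_pow₀ (by norm_num)
      nlinarith [norm_nonneg z]
    have h2 := hR _ h1
    rw [pow_succ]
    linarith

theorem escapes_of {T : ℂ[X]} {R : ℝ} (hR1 : 1 ≤ R)
    (hR : ∀ z : ℂ, R ≤ ‖z‖ → 2 * ‖z‖ ≤ ‖map T z‖) {z : ℂ} {j : ℕ}
    (hz : R ≤ ‖(map T)^[j] z‖) : Escapes T z := by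
  have h1 : Tendsto (fun k : ℕ => ‖(map T)^[k + j] z‖) atTop atTop := by
    refine tendsto_atTop_mono (f := fun k : ℕ => (2 : ℝ) ^ k) (fun k => ?_)
      (tendsto_pow_atTop_atTop_of_one_lt (by norm_num))
    rw [Function.iterate_add_apply]
    have h2 := iter_ge hR1 hR hz k
    have h3 : (0 : ℝ) < 2 ^ k := by positivity
    have h4 : 1 ≤ ‖(map T)^[j] z‖ := hR1.trans hz
    nlinarith
  exact (tendsto_add_atTop_iff_nat j).1 h1

/-- Points at a distance `> C / n` from the segment escape under `P ∘ T_n` (uniformly in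
translations of `P` by at most one). -/
theorem escape {P : ℂ[X]} (hP : 1 ≤ P.natDegree) :
    ∃ C : ℝ, 0 < C ∧ ∀ a : ℂ, ‖a‖ ≤ 1 → ∀ n : ℕ, 2 ≤ n → ∀ z : ℂ, ∀ j : ℕ,
      (∀ t : ℝ, |t| ≤ 1 → C / n < ‖(map (F (P + Polynomial.C a) n))^[j] z - t‖) →
      Escapes (F (P + Polynomial.C a) n) z := by
  obtain ⟨κ, R₁, hκ, hR₁, hgr⟩ := growth hP
  set R : ℝ := 2 * R₁ + 8 / κ + 4 with hR
  have hRR : 2 * R₁ ≤ R := by
    have : 0 < 8 / κ := by positivity
    linarith
  have hR1 : 1 ≤ R := by linarith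
  have hbig : ∀ a : ℂ, ‖a‖ ≤ 1 → ∀ n : ℕ, 2 ≤ n → ∀ z : ℂ, R ≤ ‖z‖ →
      2 * ‖z‖ ≤ ‖map (F (P + Polynomial.C a) n) z‖ := by
    intro a ha n hn z hz
    rw [map_F, eval_add, eval_C]
    have h1 := tn_far hn z
    have h2 : R₁ ≤ ‖tn n z‖ := by nlinarith
    have h3 := hgr _ h2
    have h4 : ‖P.eval (tn n z)‖ ≤ ‖P.eval (tn n z) + a‖ + ‖a‖ := by
      have := norm_sub_le (P.eval (tn n z) + a) a
      simpa using this
    have h5 : 8 / κ + 1 ≤ ‖z‖ := by linarith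
    have h6 : 8 + κ ≤ κ * ‖z‖ := by
      have := mul_le_mul_of_nonneg_left h5 hκ.le
      rw [mul_add, mul_div_cancel₀ _ hκ.ne', mul_one] at this
      exact this
    have h7 : 4 ≤ ‖z‖ := by
      have : 0 < 8 / κ := by positivity
      linarith
    have h8 : κ * (‖z‖ ^ 2 - 1) ≤ κ * (2 * ‖tn n z‖) := by gcongr
    nlinarith
  refine ⟨2 * R₁ + 2 * (R + 1) / κ + 1, by positivity, fun a ha n hn z j hz => ?_⟩
  refine escapes_of (j := j + 1) hR1 (hbig a ha n hn) ?_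
  rw [Function.iterate_succ_apply', map_F, eval_add, eval_C]
  set x := (map (F (P + Polynomial.C a) n))^[j] z with hx
  have hn0 : (0 : ℝ) < n := by exact_mod_cast (by omega : 0 < n)
  have h1 := tn_near (n := n) hz
  rw [mul_div_cancel₀ _ hn0.ne'] at h1
  have hpos : 0 < 2 * (R + 1) / κ := by positivity
  have h2 : R₁ ≤ ‖tn n x‖ := by linarith
  have h3 := hgr _ h2
  have h4 : ‖P.eval (tn n x)‖ ≤ ‖P.eval (tn n x) + a‖ + ‖a‖ := by
    have := norm_sub_le (P.eval (tn n x) + a) a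
    simpa using this
  have h5 : (R + 1) / κ ≤ ‖tn n x‖ := by
    have : 2 * (R + 1) / κ = 2 * ((R + 1) / κ) := by ring
    linarith
  rw [div_le_iff₀ hκ] at h5
  linarith

end Pool.Agent.Q189.CH
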