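import Pool.Agent.Q189.CH.B

/-!
# Critical points and critical values of `P ∘ T_n`
-/

set_option autoImplicit false

open Set Filter Topology Polynomial

namespace Pool.Agent.Q189.CH

variable {P : ℂ[X]} {n : ℕ}

/-- `v` is `P 1`, `P (-1)` or a critical value of `P`. -/
def CV (P : ℂ[X]) (v : ℂ) : Prop :=
  v = P.eval 1 ∨ v = P.eval (-1) ∨ ∃ y : ℂ, (derivative P).eval y = 0 ∧ v = P.eval y

/-- `x` is not a critical point of `P ∘ T_n`. -/
def Reg (P : ℂ[X]) (n : ℕ) (x : ℂ) : Prop :=
  (derivative P).eval (tn n x) ≠ 0 ∧ ((tn n x) ^ 2 = 1 → x ^ 2 = 1)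

theorem dF (P : ℂ[X]) (n : ℕ) (x : ℂ) : (derivative (F P n)).eval x =
    (derivative P).eval (tn n x) * (derivative (Chebyshev.T ℂ n)).eval x := by
  unfold F tn
  rw [derivative_comp, eval_mul, eval_comp, mul_comm]

theorem dT_zero_iff (hn : 1 ≤ n) (x : ℂ) :
    (derivative (Chebyshev.T ℂ n)).eval x = 0 ↔ (tn n x) ^ 2 = 1 ∧ x ^ 2 ≠ 1 := by
  have hn0 : (n : ℂ) ≠ 0 := by exact_mod_cast (by omega : n ≠ 0)
  have hp := tn_pell n x
  constructor
  · intro h
    refine ⟨?_, ?_⟩
    · rw [h] at hp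
      have h1 : (n : ℂ) ^ 2 * (1 - tn n x ^ 2) = 0 := by rw [← hp]; ring
      rcases mul_eq_zero.1 h1 with h2 | h2
      · exact absurd h2 (pow_ne_zero 2 hn0)
      · linear_combination -h2
    · intro h1
      have h2 := dT_one n h1
      rw [h, norm_zero] at h2
      have h3 : (n : ℝ) ^ 2 ≠ 0 := pow_ne_zero 2 (by exact_mod_cast (by omega : n ≠ 0))
      exact h3 h2.symm
  · rintro ⟨h1, h2⟩
    rw [h1, sub_self, mul_zero] at hp
    rcases mul_eq_zero.1 hp with h3 | h3
    · exact absurd (by linear_combination -h3) h2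
    · exact pow_eq_zero_iff (two_ne_zero) |>.1 h3

theorem reg_iff (hn : 1 ≤ n) (x : ℂ) : Reg P n x ↔ (derivative (F P n)).eval x ≠ 0 := by
  rw [dF, mul_ne_zero_iff, Ne, Ne, dT_zero_iff hn]
  unfold Reg
  tauto

theorem deriv_map (T : ℂ[X]) (x : ℂ) : deriv (map T) x = (derivative T).eval x := by
  show deriv (fun w => T.eval w) x = _
  rw [Polynomial.deriv]

theorem map_diff (T : ℂ[X]) : Differentiable ℂ (map T) := T.differentiable

theorem deriv_iter (T : ℂ[X]) (m : ℕ) (x : ℂ) : deriv ((map T)^[m]) x =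
    ∏ i ∈ Finset.range m, (derivative T).eval ((map T)^[i] x) := by
  induction m with
  | zero => simp
  | succ m ih =>
    rw [Function.iterate_succ', deriv_comp _ (map_diff T _) ((map_diff T).iterate m _),
      Finset.prod_range_succ, ih, deriv_map, mul_comm]

theorem cv_of_crit (hn : 1 ≤ n) {c : ℂ} (hc : (derivative (F P n)).eval c = 0) :
    CV P (map (F P n) c) := by
  rw [map_F]
  rw [dF, mul_eq_zero] at hc
  rcases hc with h | h
  · exact Or.inr (Or.inr ⟨_, h, rfl⟩)
  · rcases sq_eq_one_iff_of_ne_zero' ((dT_zero_iff hn c).1 h).1 with h1 | h1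
    · exact Or.inl (by rw [h1])
    · exact Or.inr (Or.inl (by rw [h1]))

theorem crit_of_cv (hn : 3 ≤ n) {v : ℂ} (hv : CV P v) :
    ∃ c : ℂ, (derivative (F P n)).eval c = 0 ∧ map (F P n) c = v := by
  have hn0 : (n : ℂ) ≠ 0 := by exact_mod_cast (by omega : n ≠ 0)
  have hnR : (0 : ℝ) < n := by exact_mod_cast (by omega : 0 < n)
  have hn3 : (3 : ℝ) ≤ n := by exact_mod_cast hn
  have key : ∀ k : ℝ, 0 < k → k < n → ∀ s : ℂ, s ^ 2 = 1 → Complex.cos (k * Real.pi) = s →
      v = P.eval s → ∃ c : ℂ, (derivative (F P n)).eval c = 0 ∧ map (F P n) c = v := by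
    intro k hk0 hk1 s hs1 hs2 hv
    have hpi := Real.pi_pos
    have htn : tn n (Complex.cos ((k / n * Real.pi : ℝ) : ℂ)) = s := by
      rw [tn_cos, ← hs2]
      congr 1
      push_cast
      field_simp
    refine ⟨Complex.cos ((k / n * Real.pi : ℝ) : ℂ), ?_, by rw [map_F, htn, hv]⟩
    rw [dF]
    apply mul_eq_zero_of_right
    rw [dT_zero_iff (by omega)]
    refine ⟨by rw [htn, hs1], ?_⟩
    intro h1
    have h2 : Complex.sin ((k / n * Real.pi : ℝ) : ℂ) ^ 2 = 0 := by
      have := Complex.sin_sq_add_cos_sq ((k / n * Real.pi : ℝ) : ℂ)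
      linear_combination this - h1
    have h3 : Complex.sin ((k / n * Real.pi : ℝ) : ℂ) = 0 := pow_eq_zero_iff two_ne_zero |>.1 h2
    rw [← Complex.ofReal_sin] at h3
    have h4 : Real.sin (k / n * Real.pi) = 0 := by exact_mod_cast h3
    have h5 : 0 < Real.sin (k / n * Real.pi) := by
      apply Real.sin_pos_of_pos_of_lt_pi
      · positivity
      · have : k / n < 1 := by rw [div_lt_one hnR]; exact hk1
        nlinarith
    exact h5.ne' h4
  rcases hv with h | h | ⟨y, hy, h⟩
  · refine key 2 two_pos (by linarith) 1 (by norm_num) ?_ h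
    have := Complex.cos_two_pi
    push_cast
    exact this
  · refine key 1 one_pos (by linarith) (-1) (by norm_num) ?_ h
    push_cast
    rw [one_mul]
    exact Complex.cos_pi
  · obtain ⟨θ, rfl⟩ := Complex.cos_surjective y
    have htn : tn n (Complex.cos (θ / n)) = Complex.cos θ := by
      rw [tn_cos, mul_div_cancel₀ _ hn0]
    exact ⟨Complex.cos (θ / n), by rw [dF, htn, hy, zero_mul], by rw [map_F, htn, h]⟩

/-- The orbit of a critical point whose tail is finite and contains infinitely many critical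
points. -/
theorem attracted_of {T : ℂ[X]} {X : Set ℂ} (hX : X.Finite) {c : ℂ}
    (h1 : ∀ j, (map T)^[j + 1] c ∈ X)
    (h2 : ∀ J, ∃ j, J ≤ j ∧ (derivative T).eval ((map T)^[j] c) = 0) : Attracted T c := by
  obtain ⟨a, p, hp, -, hrep⟩ := exists_repeat (T := map T) hX (v := map T c)
    (fun i _ => by rw [← Function.iterate_succ_apply]; exact h1 i)
  have hrep' : (map T)^[p] ((map T)^[a + 1] c) = (map T)^[a + 1] c := by
    rw [Function.iterate_succ_apply]; exact hrep
  set N := p * (a + 1) with hN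
  have hN1 : a + 1 ≤ N := by rw [hN]; nlinarith
  set x := (map T)^[N] c with hx
  have hper : ∀ m, a + 1 ≤ m → (map T)^[p] ((map T)^[m] c) = (map T)^[m] c := by
    intro m hm
    obtain ⟨d, rfl⟩ := Nat.exists_eq_add_of_le hm
    have h3 : Function.IsPeriodicPt (map T) p ((map T)^[a + 1] c) := hrep'
    have h4 := h3.apply_iterate d
    rw [add_comm (a + 1), Function.iterate_add_apply]
    exact h4
  have hfix : Function.IsPeriodicPt (map T) N x :=
    Function.IsPeriodicPt.mul_const (m := p) (hper N hN1) (a + 1)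
  refine ⟨N, by omega, x, hfix, ?_, ?_⟩
  · obtain ⟨j, hj, hj0⟩ := h2 N
    obtain ⟨i, rfl⟩ := Nat.exists_eq_add_of_le hj
    rw [deriv_iter]
    have h5 : (map T)^[N + i] c = (map T)^[i % N] x := by
      rw [add_comm, Function.iterate_add_apply, ← hx]
      exact (hfix.iterate_mod_apply i).symm
    have h6 : ∏ i ∈ Finset.range N, (derivative T).eval ((map T)^[i] x) = 0 :=
      Finset.prod_eq_zero (Finset.mem_range.2 (Nat.mod_lt i (by omega))) (by rw [← h5]; exact hj0)
    rw [h6, norm_zero]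
    exact one_pos
  · refine (tendsto_const_nhds (x := x)).congr' ?_
    filter_upwards [eventually_ge_atTop 1] with k hk
    obtain ⟨m, rfl⟩ := Nat.exists_eq_add_of_le hk
    have : N * (1 + m) = N * m + N := by ring
    rw [this, Function.iterate_add_apply, ← hx, (hfix.mul_const m : Function.IsPeriodicPt _ _ _)]

theorem not_hyp_of {T : ℂ[X]} {X : Set ℂ} (hX : X.Finite) {c : ℂ}
    (hc : (derivative T).eval c = 0)
    (h1 : ∀ j, (map T)^[j + 1] c ∈ X)
    (h2 : ∀ j, 1 ≤ ‖(derivative T).eval ((map T)^[j + 1] c)‖) : ¬ Hyperbolic T := by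
  intro hh
  rcases hh c hc with he | ⟨m, hm, x, hx, hd, ht⟩
  · obtain ⟨B, hB⟩ := (hX.isCompact.isBounded).exists_norm_le
    have h3 := (he.eventually_gt_atTop B).and (eventually_ge_atTop 1)
    obtain ⟨k, hk, hk1⟩ := h3.exists
    obtain ⟨j, rfl⟩ := Nat.exists_eq_add_of_le' hk1
    exact absurd (hB _ (h1 j)) (not_le.2 hk)
  · have h3 : ∀ᶠ k : ℕ in atTop, (map T)^[m * k] c = x := by
      have hcl : IsClosed (X \ {x}) := (hX.subset Set.sdiff_subset).isClosed
      have h4 : ∀ᶠ k : ℕ in atTop, (map T)^[m * k] c ∈ (X \ {x})ᶜ :=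
        ht.eventually (hcl.isOpen_compl.mem_nhds (by simp))
      filter_upwards [h4, eventually_ge_atTop 1] with k hk hk1
      by_contra hne
      apply hk
      refine ⟨?_, hne⟩
      have : 1 ≤ m * k := Nat.mul_pos hm hk1
      obtain ⟨j, hj⟩ := Nat.exists_eq_add_of_le' this
      rw [hj]
      exact h1 j
    obtain ⟨k, hk, hk1⟩ := (h3.and (eventually_ge_atTop 1)).exists
    rw [deriv_iter, norm_prod] at hd
    have h5 : 1 ≤ ∏ i ∈ Finset.range m, ‖(derivative T).eval ((map T)^[i] x)‖ := by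
      refine Finset.one_le_prod ?_
      intro i _
      have : 1 ≤ i + m * k := by
        have := Nat.mul_pos hm hk1
        omega
      obtain ⟨j, hj⟩ := Nat.exists_eq_add_of_le' this
      rw [← hk, ← Function.iterate_add_apply, hj]
      exact h2 j
    linarith

end Pool.Agent.Q189.CH
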