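import Pool.Agent.Q189.CH.C

/-!
# The zero-one law for `P ∘ T_n`
-/

set_option autoImplicit false

open Set Filter Topology Polynomial

namespace Pool.Agent.Q189.CH

variable {P : ℂ[X]} {n : ℕ}

/-- Some critical value has an orbit which consists of cosines of rational angles and contains no
critical point. -/
def Res (P : ℂ[X]) (n : ℕ) : Prop :=
  ∃ v : ℂ, CV P v ∧ ∀ j : ℕ, Sp ((map (F P n))^[j] v) ∧ Reg P n ((map (F P n))^[j] v)

/-- The orbit of some critical value leaves the cosines of rational angles at a point of the segment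
whose image is within `δ` of the segment. -/
def Exc (P : ℂ[X]) (δ : ℝ) (n : ℕ) : Prop :=
  ∃ v : ℂ, CV P v ∧ ∃ j : ℕ, (∀ i < j, Sp ((map (F P n))^[i] v)) ∧
    Seg ((map (F P n))^[j] v) ∧ ¬ Sp ((map (F P n))^[j] v) ∧
    ∃ t : ℝ, |t| ≤ 1 ∧ ‖(map (F P n))^[j + 1] v - t‖ ≤ δ

/-- The segment is mapped into the segment only at finitely many points. -/
def FZ (P : ℂ[X]) : Prop := {u : ℂ | Seg u ∧ Seg (P.eval u)}.Finite

/-- The possible points of the orbits. -/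
def XS (P : ℂ[X]) : Set ℂ :=
  {x | CV P x ∨ ∃ u : ℂ, (Seg u ∧ Seg (P.eval u)) ∧ x = P.eval u}

theorem fin_lo {α : Type*} {Y : Set α} (hY : Y.Finite) (f : α → ℝ) (h : ∀ y ∈ Y, 0 < f y) :
    ∃ c : ℝ, 0 < c ∧ ∀ y ∈ Y, c ≤ f y := by
  rcases Y.eq_empty_or_nonempty with rfl | hne
  · exact ⟨1, one_pos, by simp⟩
  · obtain ⟨a, ha, hmin⟩ := Set.exists_min_image Y f hY hne
    exact ⟨f a, h a ha, hmin⟩

theorem derivative_ne (hP : 1 ≤ P.natDegree) : derivative P ≠ 0 := by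
  intro h
  have := derivative_eq_zero.1 h
  omega

theorem cv_finite (hP : 1 ≤ P.natDegree) : {v | CV P v}.Finite := by
  have h1 : {y : ℂ | (derivative P).eval y = 0}.Finite := by
    have h2 := (derivative P).roots.toFinset.finite_toSet
    refine h2.subset fun y hy => ?_
    simp only [Finset.mem_coe, Multiset.mem_toFinset, mem_roots', ne_eq]
    exact ⟨derivative_ne hP, hy⟩
  refine (((Set.finite_singleton (P.eval 1)).union (Set.finite_singleton (P.eval (-1)))).union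
    (h1.image fun y => P.eval y)).subset ?_
  rintro v (h | h | ⟨y, hy, h⟩)
  · exact Or.inl (Or.inl h)
  · exact Or.inl (Or.inr h)
  · exact Or.inr ⟨y, hy, h.symm⟩

theorem XS_finite (hP : 1 ≤ P.natDegree) (hZ : FZ P) : (XS P).Finite := by
  refine ((cv_finite hP).union (hZ.image fun y => P.eval y)).subset ?_
  rintro v (h | ⟨y, hy, h⟩)
  · exact Or.inl h
  · exact Or.inr ⟨y, hy, h.symm⟩

theorem orbit_XS {v : ℂ} (hv : CV P v) {j : ℕ} (h : ∀ i < j, Sp ((map (F P n))^[i] v))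
    (hj : Seg ((map (F P n))^[j] v)) : (map (F P n))^[j] v ∈ XS P := by
  rcases j with - | j
  · exact Or.inl hv
  · rw [Function.iterate_succ_apply', map_F] at hj ⊢
    exact Or.inr ⟨_, ⟨(h j (by omega)).seg.tn n, hj⟩, rfl⟩

/-- The segment. -/
def SegS : Set ℂ := {x | Seg x}

theorem SegS_compact : IsCompact SegS := by
  have h : SegS = (fun t : ℝ => (t : ℂ)) '' Set.Icc (-1) 1 := by
    ext x
    constructor
    · rintro ⟨t, ht, rfl⟩
      exact ⟨t, abs_le.1 ht, rfl⟩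
    · rintro ⟨t, ht, rfl⟩
      exact ⟨t, abs_le.2 ht, rfl⟩
  rw [h]
  exact isCompact_Icc.image Complex.continuous_ofReal

theorem dist_pos {x : ℂ} (hx : ¬ Seg x) : 0 < Metric.infDist x SegS :=
  (SegS_compact.isClosed.notMem_iff_infDist_pos ⟨0, 0, by norm_num, by norm_num⟩).1 hx

theorem dist_le {x : ℂ} {t : ℝ} (ht : |t| ≤ 1) : Metric.infDist x SegS ≤ ‖x - t‖ := by
  rw [← dist_eq_norm]
  exact Metric.infDist_le_dist_of_mem ⟨t, ht, rfl⟩

theorem res_congr {M m : ℕ} (hM : ∀ x ∈ {x ∈ XS P | Sp x}, ∀ n m : ℕ, n ≡ m [MOD M] →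
    tn n x = tn m x) (h : n ≡ m [MOD M]) (hr : Res P n) : Res P m := by
  obtain ⟨v, hv, hall⟩ := hr
  have hX : ∀ j, (map (F P n))^[j] v ∈ {x ∈ XS P | Sp x} := fun j =>
    ⟨orbit_XS hv (fun i _ => (hall i).1) (hall j).1.seg, (hall j).1⟩
  have heq : ∀ j, (map (F P m))^[j] v = (map (F P n))^[j] v := by
    intro j
    induction j with
    | zero => rfl
    | succ j ih =>
      rw [Function.iterate_succ_apply', Function.iterate_succ_apply', ih, map_F, map_F,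
        hM _ (hX j) n m h]
  refine ⟨v, hv, fun j => ?_⟩
  rw [heq]
  refine ⟨(hall j).1, ?_⟩
  have h1 := (hall j).2
  unfold Reg at h1 ⊢
  rwa [← hM _ (hX j) n m h]

/-- Large derivatives at the points of the finite set. -/
theorem exists_large {M : ℕ} (hP : 1 ≤ P.natDegree) (hZ : FZ P) (hM0 : 0 < M)
    (hM : ∀ x ∈ {x ∈ XS P | Sp x}, ∀ n m : ℕ, n ≡ m [MOD M] → tn n x = tn m x) :
    ∃ n₁ : ℕ, ∀ n, n₁ ≤ n → ∀ x ∈ {x ∈ XS P | Sp x}, Reg P n x →
      1 ≤ ‖(derivative (F P n)).eval x‖ := by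
  have hX : ({x ∈ XS P | Sp x}).Finite := (XS_finite hP hZ).subset (Set.sep_subset _ _)
  set Y : Set ℂ := (fun p : ℂ × ℕ => tn p.2 p.1) '' ({x ∈ XS P | Sp x} ×ˢ Set.Iio M) with hY
  have hYf : Y.Finite := (hX.prod (Set.finite_Iio M)).image _
  have hYm : ∀ x ∈ {x ∈ XS P | Sp x}, ∀ n, tn n x ∈ Y := by
    intro x hx n
    refine ⟨(x, n % M), ⟨hx, Nat.mod_lt _ hM0⟩, ?_⟩
    exact hM x hx _ _ (Nat.mod_modEq n M)
  obtain ⟨c₁, hc₁, h1⟩ := fin_lo (hYf.subset (Set.sep_subset Y fun y => (derivative P).eval y ≠ 0))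
    (fun y => ‖(derivative P).eval y‖) (fun y hy => norm_pos_iff.2 hy.2)
  obtain ⟨c₂, hc₂, h2⟩ := fin_lo (hYf.subset (Set.sep_subset Y fun y => y ^ 2 ≠ 1))
    (fun y => ‖1 - y ^ 2‖) (fun y hy => norm_pos_iff.2 fun h => hy.2 (by linear_combination -h))
  set c : ℝ := min c₂ 1 with hc
  have hc0 : 0 < c := lt_min hc₂ one_pos
  have hc1 : c ≤ 1 := min_le_right _ _
  obtain ⟨n₁, hn₁⟩ := exists_nat_gt (1 / (c₁ ^ 2 * c))
  refine ⟨n₁ + 1, fun n hn x hx hr => ?_⟩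
  have hn1 : (1 : ℝ) ≤ n := by exact_mod_cast (by omega : 1 ≤ n)
  have hT : (n : ℝ) ^ 2 * c ≤ ‖(derivative (Chebyshev.T ℂ n)).eval x‖ ^ 2 := by
    by_cases hx1 : x ^ 2 = 1
    · rw [dT_one n hx1]
      have h5 : (n : ℝ) ^ 2 ≤ ((n : ℝ) ^ 2) ^ 2 := by
        have : (1 : ℝ) ≤ (n : ℝ) ^ 2 := one_le_pow₀ hn1
        nlinarith
      nlinarith [sq_nonneg (n : ℝ)]
    · have hy1 : (tn n x) ^ 2 ≠ 1 := fun h => hx1 (hr.2 h)
      have h3 := congrArg norm (tn_pell n x)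
      rw [norm_mul, norm_mul, norm_pow, norm_pow, Complex.norm_natCast] at h3
      have h4 : ‖1 - x ^ 2‖ ≤ 1 := by
        obtain ⟨t, ht, rfl⟩ := hx.2.seg
        have : (1 - (t : ℂ) ^ 2) = ((1 - t ^ 2 : ℝ) : ℂ) := by push_cast; ring
        rw [this, Complex.norm_real, Real.norm_eq_abs, abs_le]
        have h6 := sq_le_one_iff_abs_le_one t |>.2 ht
        constructor <;> nlinarith [sq_nonneg t]
      have h5 : c ≤ ‖1 - tn n x ^ 2‖ := (min_le_left _ _).trans (h2 _ ⟨hYm x hx n, hy1⟩)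
      calc (n : ℝ) ^ 2 * c ≤ (n : ℝ) ^ 2 * ‖1 - tn n x ^ 2‖ := by gcongr
        _ = ‖1 - x ^ 2‖ * ‖(derivative (Chebyshev.T ℂ n)).eval x‖ ^ 2 := h3.symm
        _ ≤ 1 * ‖(derivative (Chebyshev.T ℂ n)).eval x‖ ^ 2 := by gcongr
        _ = _ := one_mul _
  rw [dF, norm_mul]
  have h6 := h1 _ ⟨hYm x hx n, hr.1⟩
  have h7 : 1 ≤ (‖(derivative P).eval (tn n x)‖ * ‖(derivative (Chebyshev.T ℂ n)).eval x‖) ^ 2 := by
    rw [mul_pow]
    have h8 : (n₁ : ℝ) ≤ n := by exact_mod_cast (by omega : n₁ ≤ n)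
    have h9 : 1 < c₁ ^ 2 * c * n := by
      rw [div_lt_iff₀ (by positivity)] at hn₁
      nlinarith [mul_pos (pow_pos hc₁ 2) hc0]
    calc (1 : ℝ) ≤ c₁ ^ 2 * c * n := h9.le
      _ ≤ c₁ ^ 2 * c * n * n := by nlinarith
      _ = c₁ ^ 2 * (n ^ 2 * c) := by ring
      _ ≤ _ := by gcongr
  exact (one_le_sq_iff₀ (by positivity)).1 h7

theorem not_hyp (hP : 1 ≤ P.natDegree) (hZ : FZ P) {M : ℕ} (hM0 : 0 < M)
    (hM : ∀ x ∈ {x ∈ XS P | Sp x}, ∀ n m : ℕ, n ≡ m [MOD M] → tn n x = tn m x) :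
    ∃ n₁ : ℕ, ∀ n, n₁ ≤ n → Res P n → ¬ Hyperbolic (F P n) := by
  obtain ⟨n₁, h1⟩ := exists_large hP hZ hM0 hM
  have hX : ({x ∈ XS P | Sp x}).Finite := (XS_finite hP hZ).subset (Set.sep_subset _ _)
  refine ⟨max n₁ 3, fun n hn hr => ?_⟩
  have hn1 : n₁ ≤ n := le_of_max_le_left hn
  have hn3 : 3 ≤ n := le_of_max_le_right hn
  obtain ⟨v, hv, hall⟩ := hr
  obtain ⟨c, hc, hcv⟩ := crit_of_cv hn3 hv
  have hXv : ∀ j, (map (F P n))^[j] v ∈ {x ∈ XS P | Sp x} := fun j =>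
    ⟨orbit_XS hv (fun i _ => (hall i).1) (hall j).1.seg, (hall j).1⟩
  refine not_hyp_of hX hc (fun j => ?_) (fun j => ?_)
  · rw [Function.iterate_succ_apply, hcv]
    exact hXv j
  · rw [Function.iterate_succ_apply, hcv]
    exact h1 n hn1 _ (hXv j) (hall j).2

theorem escapes_succ {T : ℂ[X]} {c : ℂ} (h : Escapes T (map T c)) : Escapes T c := by
  unfold Escapes at h ⊢
  refine (tendsto_add_atTop_iff_nat 1).1 (h.congr fun k => ?_)
  rw [Function.iterate_succ_apply]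

theorem hyp (hP : 1 ≤ P.natDegree) (hZ : FZ P) {M : ℕ} (hM0 : 0 < M)
    (hM : ∀ x ∈ {x ∈ XS P | Sp x}, ∀ n m : ℕ, n ≡ m [MOD M] → tn n x = tn m x) :
    ∃ C : ℝ, 0 < C ∧ ∃ n₁ : ℕ, ∀ n, n₁ ≤ n → ¬ Res P n → ¬ Exc P (C / n) n →
      Hyperbolic (F P n) := by
  obtain ⟨C, hC, hesc⟩ := escape hP
  have hesc' : ∀ n : ℕ, 2 ≤ n → ∀ z : ℂ, ∀ j : ℕ,
      (∀ t : ℝ, |t| ≤ 1 → C / n < ‖(map (F P n))^[j] z - t‖) → Escapes (F P n) z := by
    have := hesc 0 (by simp)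
    rwa [C_0, add_zero] at this
  have hX : ({x ∈ XS P | Sp x}).Finite := (XS_finite hP hZ).subset (Set.sep_subset _ _)
  -- the points off the segment
  set Y : Set ℂ := (fun p : ℂ × ℕ => P.eval (tn p.2 p.1)) '' ({x ∈ XS P | Sp x} ×ˢ Set.Iio M)
    with hY
  have hYf : Y.Finite := (hX.prod (Set.finite_Iio M)).image _
  have hYm : ∀ x ∈ {x ∈ XS P | Sp x}, ∀ n, P.eval (tn n x) ∈ Y := by
    intro x hx n
    refine ⟨(x, n % M), ⟨hx, Nat.mod_lt _ hM0⟩, ?_⟩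
    simp only []
    rw [hM x hx _ _ (Nat.mod_modEq n M)]
  obtain ⟨c, hc, hlo⟩ := fin_lo (((cv_finite hP).union hYf).subset
    (Set.sep_subset ({v | CV P v} ∪ Y) fun y => ¬ Seg y))
    (fun y => Metric.infDist y SegS) (fun y hy => dist_pos hy.2)
  obtain ⟨n₁, hn₁⟩ := exists_nat_gt (C / c)
  refine ⟨C, hC, n₁ + 3, fun n hn hres hexc => ?_⟩
  have hn3 : 3 ≤ n := by omega
  have hnR : (0 : ℝ) < n := by exact_mod_cast (by omega : 0 < n)
  have hCc : C / n < c := by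
    have h8 : (n₁ : ℝ) ≤ n := by exact_mod_cast (by omega : n₁ ≤ n)
    rw [div_lt_iff₀ hc] at hn₁
    rw [div_lt_iff₀ hnR]
    nlinarith
  intro z hz
  have hv := cv_of_crit (by omega) hz
  set v := map (F P n) z with hvdef
  by_cases hall : ∀ j, Sp ((map (F P n))^[j] v)
  · right
    have hXv : ∀ j, (map (F P n))^[j + 1] z ∈ {x ∈ XS P | Sp x} := by
      intro j
      rw [Function.iterate_succ_apply]
      exact ⟨orbit_XS hv (fun i _ => hall i) (hall j).seg, hall j⟩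
    refine attracted_of hX hXv ?_
    intro J
    induction J with
    | zero => exact ⟨0, le_rfl, hz⟩
    | succ J ih =>
      obtain ⟨j, hj, hj0⟩ := ih
      have hw := cv_of_crit (by omega) hj0
      rw [← Function.iterate_succ_apply' (map (F P n))] at hw
      by_contra hcon
      push Not at hcon
      apply hres
      refine ⟨_, hw, fun i => ?_⟩
      rw [← Function.iterate_add_apply]
      refine ⟨(hXv (i + j)).2, (reg_iff (by omega) _).2 ?_⟩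
      exact hcon (i + (j + 1)) (by omega)
  · left
    apply escapes_succ
    push Not at hall
    classical
    set j := Nat.find hall with hj
    have hj1 : ¬ Sp ((map (F P n))^[j] v) := Nat.find_spec hall
    have hj2 : ∀ i < j, Sp ((map (F P n))^[i] v) := fun i hi => by
      by_contra h
      exact Nat.find_min hall hi h
    by_cases hs : Seg ((map (F P n))^[j] v)
    · refine hesc' n (by omega) v (j + 1) fun t ht => ?_
      by_contra hcon
      rw [not_lt] at hcon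
      exact hexc ⟨v, hv, j, hj2, hs, hj1, t, ht, hcon⟩
    · refine hesc' n (by omega) v j fun t ht => ?_
      refine lt_of_lt_of_le ?_ (dist_le ht)
      refine hCc.trans_le (hlo _ ⟨?_, hs⟩)
      rcases Nat.eq_zero_or_pos j with h0 | h0
      · left
        rw [h0]
        exact hv
      · right
        obtain ⟨i, hi⟩ := Nat.exists_eq_add_of_le' h0
        rw [hi, Function.iterate_succ_apply', map_F]
        refine hYm _ ⟨orbit_XS hv (fun k hk => hj2 k (by omega)) ?_, hj2 i (by omega)⟩ n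
        exact (hj2 i (by omega)).seg

/-! ### Windows -/

theorem exc_mem {δ : ℝ} (h : Exc P δ n) : ∃ x ∈ {x ∈ XS P | Seg x ∧ ¬ Sp x},
    ∃ t : ℝ, |t| ≤ 1 ∧ ‖P.eval (tn n x) - t‖ ≤ δ := by
  obtain ⟨v, hv, j, h1, h2, h3, t, ht, h4⟩ := h
  refine ⟨_, ⟨orbit_XS hv h1 h2, h2, h3⟩, t, ht, ?_⟩
  rwa [Function.iterate_succ_apply', map_F] at h4

theorem exists_omega {x : ℂ} (h1 : Seg x) (h2 : ¬ Sp x) : ∃ ω : ℂ, ‖ω‖ = 1 ∧
    (∀ n : ℕ, tn n x = ((ω ^ n).re : ℂ)) ∧ ∀ k : ℕ, 0 < k → ω ^ k ≠ 1 := by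
  obtain ⟨θ, rfl⟩ := h1.exists
  refine ⟨Complex.exp (θ * Complex.I), Complex.norm_exp_ofReal_mul_I θ, fun n => ?_,
    fun k hk h => ?_⟩
  · rw [tn_cos, ← Complex.exp_nat_mul]
    have : (n : ℂ) * (θ * Complex.I) = ((n * θ : ℝ) : ℂ) * Complex.I := by push_cast; ring
    rw [this, Complex.exp_ofReal_mul_I_re, Complex.ofReal_cos]
    push_cast
    ring_nf
  · rw [← Complex.exp_nat_mul, Complex.exp_eq_one_iff] at h
    obtain ⟨m, hm⟩ := h
    apply h2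
    have hk0 : (k : ℂ) ≠ 0 := by exact_mod_cast hk.ne'
    have h3 : (θ : ℂ) = (2 * m / k) * Real.pi := by
      have h4 : (k : ℂ) * θ = m * (2 * Real.pi) := by
        have h5 : ((k : ℂ) * θ - m * (2 * Real.pi)) * Complex.I = 0 := by
          linear_combination hm
        rcases mul_eq_zero.1 h5 with h6 | h6
        · linear_combination h6
        · exact absurd h6 Complex.I_ne_zero
      field_simp
      linear_combination h4
    refine ⟨2 * m / k, ?_⟩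
    rw [h3]
    push_cast
    rfl

/-- The points of the circle whose real part is mapped into the segment. -/
def WS (P : ℂ[X]) : Set ℂ := {w | ‖w‖ = 1 ∧ Seg (P.eval (w.re : ℂ))}

theorem WS_finite (hZ : FZ P) : (WS P).Finite := by
  have h1 : (⋃ u ∈ {u : ℂ | Seg u ∧ Seg (P.eval u)}, ({⟨u.re, √(1 - u.re ^ 2)⟩,
      ⟨u.re, -√(1 - u.re ^ 2)⟩} : Set ℂ)).Finite :=
    Set.Finite.biUnion hZ fun u _ => by simp
  refine h1.subset ?_
  rintro w ⟨hw1, hw2⟩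
  have hre : |w.re| ≤ 1 := by rw [← hw1]; exact Complex.abs_re_le_norm w
  refine Set.mem_biUnion (x := (w.re : ℂ)) ⟨⟨w.re, hre, rfl⟩, hw2⟩ ?_
  have h2 : w.im ^ 2 = 1 - w.re ^ 2 := by
    have h3 := Complex.sq_norm w
    rw [hw1, Complex.normSq_apply] at h3
    nlinarith
  simp only [Complex.ofReal_re, Set.mem_insert_iff, Set.mem_singleton_iff]
  rw [← h2, Real.sqrt_sq_eq_abs]
  rcases le_total 0 w.im with h4 | h4
  · left
    rw [abs_of_nonneg h4]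
  · right
    rw [abs_of_nonpos h4, neg_neg]

theorem exists_near {η : ℝ} (hη : 0 < η) : ∃ δ : ℝ, 0 < δ ∧ ∀ w : ℂ, ‖w‖ = 1 →
    (∃ t : ℝ, |t| ≤ 1 ∧ ‖P.eval (w.re : ℂ) - t‖ ≤ δ) → ∃ w₀ ∈ WS P, ‖w - w₀‖ < η := by
  set f : ℂ → ℝ := fun w => Metric.infDist (P.eval (w.re : ℂ)) SegS with hf
  have hfc : Continuous f := (Metric.continuous_infDist_pt SegS).comp
    (P.continuous.comp (Complex.continuous_ofReal.comp Complex.continuous_re))
  set K : Set ℂ := {w | ‖w‖ = 1 ∧ ∀ w₀ ∈ WS P, η ≤ ‖w - w₀‖} with hK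
  have hKc : IsCompact K := by
    refine (isCompact_sphere (0 : ℂ) 1).of_isClosed_subset ?_ fun w hw => by simpa using hw.1
    have : K = {w | ‖w‖ = 1} ∩ ⋂ w₀ ∈ WS P, {w | η ≤ ‖w - w₀‖} := by
      ext w
      simp [hK]
    rw [this]
    refine (isClosed_eq continuous_norm continuous_const).inter ?_
    exact isClosed_biInter fun w₀ _ => isClosed_le continuous_const
      (continuous_norm.comp (continuous_id.sub continuous_const))
  have hpos : ∀ w ∈ K, 0 < f w := by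
    intro w hw
    apply dist_pos
    intro h
    have := hw.2 w ⟨hw.1, h⟩
    rw [sub_self, norm_zero] at this
    linarith
  have hm : ∃ m : ℝ, 0 < m ∧ ∀ w ∈ K, m ≤ f w := by
    rcases K.eq_empty_or_nonempty with h | h
    · exact ⟨1, one_pos, by simp [h]⟩
    · obtain ⟨a, ha, hmin⟩ := hKc.exists_isMinOn h hfc.continuousOn
      exact ⟨f a, hpos a ha, fun w hw => hmin hw⟩
  obtain ⟨m, hm0, hm⟩ := hm
  refine ⟨m / 2, by positivity, fun w hw ⟨t, ht, h⟩ => ?_⟩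
  by_contra hcon
  push Not at hcon
  have h1 := hm w ⟨hw, hcon⟩
  have h2 : f w ≤ ‖P.eval (w.re : ℂ) - t‖ := dist_le ht
  linarith

/-- In long windows there are boundedly many exceptional exponents. -/
theorem window (hP : 1 ≤ P.natDegree) (hZ : FZ P) :
    ∃ K : ℕ, ∀ (C : ℝ) (L : ℕ), ∃ N₀ : ℕ, ∀ N, N₀ ≤ N →
      ({n : ℕ | Exc P (C / n) n} ∩ Set.Ico N (N + L)).ncard ≤ K := by
  classical
  have hV : ({x ∈ XS P | Seg x ∧ ¬ Sp x}).Finite := (XS_finite hP hZ).subset (Set.sep_subset _ _)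
  have hW := WS_finite hZ
  set J : Finset (ℂ × ℂ) := hV.toFinset ×ˢ hW.toFinset with hJ
  refine ⟨J.card, fun C L => ?_⟩
  have hom : ∀ x : ℂ, ∃ ω : ℂ, x ∈ {x ∈ XS P | Seg x ∧ ¬ Sp x} → ‖ω‖ = 1 ∧
      (∀ n : ℕ, tn n x = ((ω ^ n).re : ℂ)) ∧ ∀ k : ℕ, 0 < k → ω ^ k ≠ 1 := by
    intro x
    by_cases hx : x ∈ {x ∈ XS P | Seg x ∧ ¬ Sp x}
    · obtain ⟨ω, h⟩ := exists_omega hx.2.1 hx.2.2
      exact ⟨ω, fun _ => h⟩
    · exact ⟨0, fun h => absurd h hx⟩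
  choose ω hω using hom
  obtain ⟨η, hη, hgap⟩ := fin_lo ((hV.prod (Set.finite_Ico 1 (L + 1))))
    (fun p : ℂ × ℕ => ‖(ω p.1) ^ p.2 - 1‖) (fun p hp => norm_pos_iff.2 (sub_ne_zero.2
      ((hω p.1 hp.1).2.2 p.2 hp.2.1)))
  obtain ⟨m, hm, hmin⟩ := exists_near (P := P) (half_pos hη)
  have hlim : Tendsto (fun n : ℕ => C / (n : ℝ)) atTop (𝓝 0) :=
    tendsto_const_div_atTop_nhds_zero_nat C
  obtain ⟨N₀, hN₀⟩ := eventually_atTop.1 (hlim.eventually (gt_mem_nhds hm))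
  refine ⟨N₀, fun N hN => ?_⟩
  have hkey : ∀ n ∈ {n : ℕ | Exc P (C / n) n} ∩ Set.Ico N (N + L),
      ∃ j ∈ J, ‖(ω j.1) ^ n - j.2‖ < η / 2 := by
    rintro n ⟨h1, h2⟩
    obtain ⟨x, hx, t, ht, h3⟩ := exc_mem h1
    have h4 := hN₀ n (hN.trans h2.1)
    have hx' := hω x hx
    rw [hx'.2.1 n] at h3
    obtain ⟨w, hw, hd⟩ := hmin ((ω x) ^ n) (by rw [norm_pow, hx'.1, one_pow])
      ⟨t, ht, h3.trans h4.le⟩
    exact ⟨(x, w), Finset.mem_product.2 ⟨hV.mem_toFinset.2 hx, hW.mem_toFinset.2 hw⟩, hd⟩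
  choose! g hg1 hg2 using hkey
  rw [← Set.ncard_coe_finset]
  refine Set.ncard_le_ncard_of_injOn g (fun n hn => hg1 n hn) ?_ (Finset.finite_toSet _)
  have key : ∀ a b : ℕ, a ∈ {n : ℕ | Exc P (C / n) n} ∩ Set.Ico N (N + L) →
      b ∈ {n : ℕ | Exc P (C / n) n} ∩ Set.Ico N (N + L) → g a = g b → ¬ a < b := by
    intro a b ha hb hab hlt
    have hx : (g a).1 ∈ {x ∈ XS P | Seg x ∧ ¬ Sp x} :=
      hV.mem_toFinset.1 (Finset.mem_product.1 (hg1 a ha)).1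
    have h1 := hg2 a ha
    have h2 := hg2 b hb
    rw [← hab] at h2
    obtain ⟨d, rfl⟩ := Nat.exists_eq_add_of_lt hlt
    have h3 := hgap ((g a).1, d + 1) ⟨hx, by
      have := ha.2.1
      have := hb.2.2
      simp only [Set.mem_Ico]
      omega⟩
    simp only [] at h3
    have hn := (hω _ hx).1
    have h4 : ‖(ω (g a).1) ^ (a + d + 1) - (ω (g a).1) ^ a‖ = ‖(ω (g a).1) ^ (d + 1) - 1‖ := by
      have : (ω (g a).1) ^ (a + d + 1) - (ω (g a).1) ^ a =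
          (ω (g a).1) ^ a * ((ω (g a).1) ^ (d + 1) - 1) := by ring
      rw [this, norm_mul, norm_pow, hn, one_pow, one_mul]
    have h5 : ‖(ω (g a).1) ^ (a + d + 1) - (ω (g a).1) ^ a‖ ≤
        ‖(ω (g a).1) ^ (a + d + 1) - (g a).2‖ + ‖(ω (g a).1) ^ a - (g a).2‖ := by
      have := norm_sub_le ((ω (g a).1) ^ (a + d + 1) - (g a).2) ((ω (g a).1) ^ a - (g a).2)
      simpa using this
    linarith
  intro a ha b hb hab
  rcases lt_trichotomy a b with h | h | h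
  · exact absurd h (key a b ha hb hab)
  · exact h
  · exact absurd h (key b a hb ha hab.symm)

/-- The zero-one law. -/
theorem law (hP : 1 ≤ P.natDegree) (hZ : FZ P) :
    ∃ M K n₀ : ℕ, ∃ C : ℝ, 0 < M ∧
      (∀ n m : ℕ, n ≡ m [MOD M] → (Res P n ↔ Res P m)) ∧
      (∀ n, n₀ ≤ n → Res P n → ¬ Hyperbolic (F P n)) ∧
      (∀ n, n₀ ≤ n → ¬ Res P n → ¬ Exc P (C / n) n → Hyperbolic (F P n)) ∧
      (∀ L : ℕ, ∃ N₀ : ℕ, ∀ N, N₀ ≤ N →
        ({n : ℕ | Exc P (C / n) n} ∩ Set.Ico N (N + L)).ncard ≤ K) ∧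
      Tendsto (fun N : ℕ => (({n : ℕ | Hyperbolic (F P n)} ∩ Set.Iio N).ncard : ℝ) / N)
        atTop (𝓝 (({a | a < M ∧ ¬ Res P a}.ncard : ℝ) / M)) := by
  obtain ⟨M, hM0, hM⟩ := exists_period (X := {x ∈ XS P | Sp x})
    ((XS_finite hP hZ).subset (Set.sep_subset _ _)) (fun x hx => hx.2)
  obtain ⟨n₁, h1⟩ := not_hyp hP hZ hM0 hM
  obtain ⟨C, -, n₂, h2⟩ := hyp hP hZ hM0 hM
  obtain ⟨K, h3⟩ := window hP hZ
  have hmod : ∀ n m : ℕ, n ≡ m [MOD M] → (Res P n ↔ Res P m) := fun n m h =>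
    ⟨res_congr hM h, res_congr hM h.symm⟩
  refine ⟨M, K, max n₁ n₂, C, hM0, hmod, fun n hn => h1 n (le_of_max_le_left hn),
    fun n hn => h2 n (le_of_max_le_right hn), h3 C, ?_⟩
  refine density_periodic hM0 (p := fun n => ¬ Res P n) (S := {n : ℕ | Exc P (C / n) n})
    (n₀ := max n₁ n₂) (fun n m h => not_congr (hmod n m h)) (density_of_window (h3 C)) ?_
  intro n hn hS
  exact ⟨fun h5 h6 => h1 n (le_of_max_le_left hn) h6 h5,
    fun h5 => h2 n (le_of_max_le_right hn) h5 hS⟩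

end Pool.Agent.Q189.CH
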